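import Pool.Agent.Q158.HyperSatBase
import Pool.Agent.Q158.HyperSatLower

/-!
# Induced saturation numbers in hypergrids are not monotone, neither in `n` nor in `t`
-/

set_option autoImplicit false

namespace Pool.Agent.Results.MP_8c6834_co.NotMonotone

open Q158.HyperSat

/-- Let `P` be the chain with `323` elements. There is an `n` with `322 ≤ n < 481` such that `P`
has an induced copy in `[2]^n` and `sat*([2]^(n+1), P) < sat*([2]^n, P)`. Moreover `P` has an
induced copy in `[2]^322` and `sat*([3]^322, P) < sat*([2]^322, P)`. -/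
theorem result :
    (∃ n : ℕ, 322 ≤ n ∧ n < 481 ∧ Nonempty (Fin 323 ↪o Grid 2 n) ∧
      ∃ m m' : ℕ, IsSat (Fin 323) 2 n m ∧ IsSat (Fin 323) 2 (n + 1) m' ∧ m' < m) ∧
    (Nonempty (Fin 323 ↪o Grid 2 322) ∧
      ∃ m m' : ℕ, IsSat (Fin 323) 2 322 m ∧ IsSat (Fin 323) 3 322 m' ∧ m' < m) := by
  choose s hs using fun n => exists_isSat (Fin 323) 2 n
  have hlow : 2 ^ 322 ≤ 323 * s 322 + 1 := by
    obtain ⟨F, hF, hc⟩ := (hs 322).1
    rw [← hc]
    exact lower F hF
  refine ⟨?_, exists_embed 322 322 le_rfl, ?_⟩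
  · obtain ⟨F, hF, hc⟩ := upper2 80 1 481 rfl one_pos
    have hup : s 481 ≤ 15 ^ 80 + 15 ^ 80 := ((hs 481).le_card F hF).trans hc
    have hlt : s 481 < s 322 := by
      have h : 323 * (15 ^ 80 + 15 ^ 80) + 1 < 2 ^ 322 := by decide +kernel
      omega
    by_contra hcon
    push Not at hcon
    have hmono : ∀ k ≤ 159, s 322 ≤ s (322 + k) := by
      intro k
      induction k with
      | zero => intro _; exact le_rfl
      | succ k ih =>
        intro hk
        exact (ih (by omega)).trans (hcon (322 + k) (by omega) (by omega)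
          (exists_embed 322 _ (by omega)) _ _ (hs _) (hs _))
    have := hmono 159 le_rfl
    norm_num at this
    omega
  · obtain ⟨F, hF, hc⟩ := upper3 160 162 322 rfl (by norm_num)
    obtain ⟨m', hm'⟩ := exists_isSat (Fin 323) 3 322
    refine ⟨s 322, m', hs 322, hm', ?_⟩
    have hup : m' ≤ 3 ^ 160 + 3 ^ 160 := (hm'.le_card F hF).trans hc
    have h : 323 * (3 ^ 160 + 3 ^ 160) + 1 < 2 ^ 322 := by decide +kernel
    omega

end Pool.Agent.Results.MP_8c6834_co.NotMonotone
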